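import Pool.Agent.W_MP_a0dd0b_co.Nine

/-!
# The dodecahedron graph has a crossing-free straight-line drawing in 3-space on nine lines
-/

namespace Pool.Agent.Results.MP_a0dd0b_co.NineLines

open Pool.Agent.W_MP_a0dd0b_co

theorem result :
    ∃ p : Fin 20 → E3, IsDrawing dodecahedron p ∧ OnLines dodecahedron p 9 :=
  ⟨pos, isDrawing, onLines⟩

end Pool.Agent.Results.MP_a0dd0b_co.NineLines
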